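import Mathlib

set_option autoImplicit false
set_option linter.unusedSectionVars false

namespace Pool.Agent.H.MP_10cf3c_an

open scoped InnerProductSpace
open Finset

theorem sum_cons {Ω : Type*} [Fintype Ω] {n : ℕ} (f : (Fin (n + 1) → Ω) → ℝ) :
    ∑ σ, f σ = ∑ ω : Ω, ∑ σ : Fin n → Ω, f (Fin.cons ω σ) := by
  rw [← Fintype.sum_prod_type']
  exact (Fintype.sum_equiv (Fin.consEquiv fun _ => Ω) _ _ fun _ => rfl).symm

theorem var_sum {Ω : Type*} [Fintype Ω] (f : Ω → ℝ) (hf : ∑ ω, f ω = 0) (m : ℕ) :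
    (Fintype.card Ω : ℝ) * ∑ σ : Fin m → Ω, (∑ j, f (σ j)) ^ 2 =
      m * (Fintype.card Ω : ℝ) ^ m * ∑ ω, f ω ^ 2 := by
  induction m with
  | zero => simp
  | succ m ih =>
    rw [sum_cons]
    simp only [Fin.sum_univ_succ, Fin.cons_zero, Fin.cons_succ, add_sq, sum_add_distrib,
      sum_const, card_univ, Fintype.card_fun, Fintype.card_fin, nsmul_eq_mul, mul_assoc,
      ← mul_sum, ← sum_mul, hf]
    push_cast
    rw [mul_assoc] at ih
    linear_combination (Fintype.card Ω : ℝ) * ih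

variable {H : Type*} [NormedAddCommGroup H] [InnerProductSpace ℂ H]

/-- signed sum -/
def sv {d : ℕ} (ε : Fin d → Bool) (y : Fin d → H) : H := ∑ i, if ε i then y i else -y i

theorem map_sv {d : ℕ} (x : H →L[ℂ] H) (ε : Fin d → Bool) (y : Fin d → H) :
    x (sv ε y) = sv ε fun i => x (y i) := by
  simp only [sv, map_sum]
  exact sum_congr rfl fun i _ => by split_ifs <;> simp

theorem sv_cons {d : ℕ} (b : Bool) (ε : Fin d → Bool) (y : Fin (d + 1) → H) :
    sv (Fin.cons b ε) y = (if b then y 0 else -y 0) + sv ε fun i => y i.succ := by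
  simp [sv, Fin.sum_univ_succ]

theorem mom2 {d : ℕ} (y : Fin d → H) :
    ∑ ε : Fin d → Bool, ‖sv ε y‖ ^ 2 = 2 ^ d * ∑ i, ‖y i‖ ^ 2 := by
  induction d with
  | zero => simp [sv]
  | succ d ih =>
    rw [sum_cons, Fintype.sum_bool, ← sum_add_distrib]
    have : ∀ ε : Fin d → Bool, ‖sv (Fin.cons true ε) y‖ ^ 2 + ‖sv (Fin.cons false ε) y‖ ^ 2 =
        2 * ‖y 0‖ ^ 2 + 2 * ‖sv ε fun i => y i.succ‖ ^ 2 := by
      intro ε
      simp only [sv_cons, if_true, Bool.false_eq_true, if_false]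
      rw [@norm_add_sq ℂ, @norm_add_sq ℂ, inner_neg_left, norm_neg, map_neg]
      ring
    simp only [this, sum_add_distrib, ← mul_sum, ih, sum_const, card_univ, Fintype.card_fun,
      Fintype.card_fin, Fintype.card_bool, nsmul_eq_mul, Fin.sum_univ_succ]
    push_cast
    ring

theorem mom4 {d : ℕ} (y : Fin d → H) :
    ∑ ε : Fin d → Bool, (‖sv ε y‖ ^ 2) ^ 2 ≤ 3 * 2 ^ d * (∑ i, ‖y i‖ ^ 2) ^ 2 := by
  induction d with
  | zero => simp [sv]
  | succ d ih =>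
    rw [sum_cons, Fintype.sum_bool, ← sum_add_distrib]
    have : ∀ ε : Fin d → Bool, (‖sv (Fin.cons true ε) y‖ ^ 2) ^ 2 +
        (‖sv (Fin.cons false ε) y‖ ^ 2) ^ 2 ≤
        2 * (‖y 0‖ ^ 2) ^ 2 + 12 * ‖y 0‖ ^ 2 * ‖sv ε fun i => y i.succ‖ ^ 2 +
          2 * (‖sv ε fun i => y i.succ‖ ^ 2) ^ 2 := by
      intro ε
      simp only [sv_cons, if_true, Bool.false_eq_true, if_false]
      rw [@norm_add_sq ℂ, @norm_add_sq ℂ, inner_neg_left, norm_neg, map_neg]
      set S := sv ε fun i => y i.succ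
      have h1 : |RCLike.re ⟪y 0, S⟫_ℂ| ≤ ‖y 0‖ * ‖S‖ :=
        (RCLike.abs_re_le_norm _).trans (norm_inner_le_norm _ _)
      have h2 : RCLike.re ⟪y 0, S⟫_ℂ ^ 2 ≤ (‖y 0‖ * ‖S‖) ^ 2 := by
        rw [← sq_abs]
        gcongr
      nlinarith
    refine (sum_le_sum fun ε _ => this ε).trans ?_
    have h3 := ih fun i => y i.succ
    simp only [sum_add_distrib, ← mul_sum, mom2, sum_const, card_univ, Fintype.card_fun,
      Fintype.card_fin, Fintype.card_bool, nsmul_eq_mul, Fin.sum_univ_succ]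
    push_cast
    have h4 : (0 : ℝ) ≤ 2 ^ d * (‖y 0‖ ^ 2) ^ 2 := by positivity
    rw [pow_succ (2 : ℝ) d]
    nlinarith

/-- deviation bound, averaged -/
theorem dev {d : ℕ} (y : Fin d → H) (m : ℕ) :
    ∑ σ : Fin m → Fin d → Bool, (∑ j, (‖sv (σ j) y‖ ^ 2 - ∑ i, ‖y i‖ ^ 2)) ^ 2 ≤
      2 * m * (2 ^ d) ^ m * (∑ i, ‖y i‖ ^ 2) ^ 2 := by
  set s := ∑ i, ‖y i‖ ^ 2 with hs
  have h1 := var_sum (fun ε : Fin d → Bool => ‖sv ε y‖ ^ 2 - s) (by
    simp [sum_sub_distrib, mom2, hs]) m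
  have h2 : ∑ ε : Fin d → Bool, (‖sv ε y‖ ^ 2 - s) ^ 2 ≤ 2 * 2 ^ d * s ^ 2 := by
    have h3 := mom4 y
    simp only [sub_sq, sum_add_distrib, sum_sub_distrib, ← sum_mul, ← mul_sum, mom2, sum_const,
      card_univ, Fintype.card_fun, Fintype.card_fin, Fintype.card_bool, nsmul_eq_mul, ← hs]
    push_cast
    rw [← hs] at h3
    nlinarith
  simp only [Fintype.card_fun, Fintype.card_fin, Fintype.card_bool] at h1
  push_cast at h1
  have h4 : (0 : ℝ) < 2 ^ d := by positivity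
  refine le_of_mul_le_mul_left ?_ h4
  rw [h1]
  calc _ ≤ (m * (2 ^ d) ^ m : ℝ) * (2 * 2 ^ d * s ^ 2) := by gcongr
    _ = _ := by ring

variable [CompleteSpace H]

theorem proj_pyth {x : H →L[ℂ] H} (hx : IsStarProjection x) (v : H) :
    ‖x v‖ ^ 2 + ‖(1 - x) v‖ ^ 2 = ‖v‖ ^ 2 := by
  have h1 : ⟪x v, (1 - x) v⟫_ℂ = 0 := by
    rw [← ContinuousLinearMap.adjoint_inner_right, ← ContinuousLinearMap.star_eq_adjoint,
      hx.isSelfAdjoint.star_eq, ← mul_apply_eq_comp, hx.mul_one_sub_self]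
    simp
  have h2 := norm_add_sq_eq_norm_sq_add_norm_sq_of_inner_eq_zero _ _ h1
  have h3 : x v + (1 - x) v = v := by simp
  rw [h3] at h2
  nlinarith

theorem atoms (X : Set (H →L[ℂ] H)) (hX : ∀ x ∈ X, IsStarProjection x)
    (hc : ∀ x ∈ X, ∀ y ∈ X, x * y = y * x) (L : List (H →L[ℂ] H)) (hL : ∀ x ∈ L, x ∈ X) :
    ∃ (ι : Type) (_ : Fintype ι) (q : ι → H →L[ℂ] H), (∀ a, ∀ x ∈ X, q a * x = x * q a) ∧
      (∀ v, ∑ a, ‖q a v‖ ^ 2 = ‖v‖ ^ 2) ∧
      ∀ x ∈ L, ∃ T : Finset ι, ∀ v, ∑ a ∈ T, ‖q a v‖ ^ 2 = ‖x v‖ ^ 2 := by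
  induction L with
  | nil => exact ⟨Unit, inferInstance, fun _ => 1, by simp, by simp, by simp⟩
  | cons x L ih =>
    obtain ⟨ι, _, q, h1, h2, h3⟩ := ih fun y hy => hL y (List.mem_cons_of_mem _ hy)
    have hx := hL x List.mem_cons_self
    have key : ∀ a v, ∑ b : Bool, ‖(q a * if b then x else 1 - x) v‖ ^ 2 = ‖q a v‖ ^ 2 := by
      intro a v
      have e : q a * (1 - x) = (1 - x) * q a := by rw [mul_sub, sub_mul, h1 a x hx]; simp
      simp only [Fintype.sum_bool, if_true, Bool.false_eq_true, if_false]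
      rw [h1 a x hx, e, mul_apply_eq_comp, mul_apply_eq_comp]
      exact proj_pyth (hX x hx) _
    classical
    refine ⟨ι × Bool, inferInstance, fun a => q a.1 * if a.2 then x else 1 - x, ?_, ?_, ?_⟩
    · rintro ⟨a, b⟩ y hy
      have : (if b then x else 1 - x) * y = y * if b then x else 1 - x := by
        split_ifs
        · exact hc x hx y hy
        · rw [mul_sub, sub_mul, hc x hx y hy]; simp
      simp only
      rw [mul_assoc, this, ← mul_assoc, h1 a y hy, mul_assoc]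
    · intro v
      rw [Fintype.sum_prod_type]
      simp only [key, h2]
    · intro y hy
      rcases List.mem_cons.1 hy with rfl | hy
      · refine ⟨univ ×ˢ {true}, fun v => ?_⟩
        rw [sum_product]
        simp [mul_apply_eq_comp, h2]
      · obtain ⟨T, hT⟩ := h3 y hy
        refine ⟨T ×ˢ univ, fun v => ?_⟩
        rw [sum_product]
        simp only [key, hT]

theorem fd (X : Set (H →L[ℂ] H)) (hX : ∀ x ∈ X, IsStarProjection x)
    (hc : ∀ x ∈ X, ∀ y ∈ X, x * y = y * x) {d : ℕ} (e : Fin d → H) (n : ℕ) (hn : 0 < n) :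
    ∃ σ : Fin (n ^ 2) → Fin d → Bool, ∀ x ∈ X, ∑ i, ‖x (e i)‖ ^ 2 ≤
      (∑ j, ‖x (sv (σ j) e)‖ ^ 2) / n ^ 2 + 3 / n * ∑ i, ‖e i‖ ^ 2 := by
  by_contra hcon
  push Not at hcon
  choose x hx hlt using hcon
  obtain ⟨ι, _, q, -, h2, h3⟩ := atoms X hX hc ((univ.toList).map x) (by
    intro y hy
    obtain ⟨σ, -, rfl⟩ := List.mem_map.1 hy
    exact hx σ)
  have hn' : (0 : ℝ) < n := by exact_mod_cast hn
  set s : ι → ℝ := fun a => ∑ i, ‖q a (e i)‖ ^ 2 with hs
  have hs0 : ∀ a, 0 ≤ s a := fun a => sum_nonneg fun _ _ => by positivity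
  set D : ι → (Fin (n ^ 2) → Fin d → Bool) → ℝ := fun a σ =>
    ∑ j, (‖sv (σ j) fun i => q a (e i)‖ ^ 2 - s a) with hD
  set g : ι → (Fin (n ^ 2) → Fin d → Bool) → ℝ := fun a σ =>
    s a / n + D a σ ^ 2 / (n ^ 3 * s a) with hg
  have hg0 : ∀ a σ, 0 ≤ g a σ := fun a σ => by
    have := hs0 a
    simp only [hg]
    positivity
  have hg1 : ∀ a σ, s a ≤ (∑ j, ‖q a (sv (σ j) e)‖ ^ 2) / n ^ 2 + g a σ := by
    intro a σ
    have e1 : (∑ j, ‖q a (sv (σ j) e)‖ ^ 2) / n ^ 2 = s a + D a σ / n ^ 2 := by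
      simp only [hD, sum_sub_distrib, map_sv, sum_const, card_univ, Fintype.card_fin,
        nsmul_eq_mul]
      push_cast
      field_simp
      ring
    rcases (hs0 a).eq_or_lt with h | h
    · rw [← h]
      have := hg0 a σ
      positivity
    · rw [e1]
      simp only [hg]
      have e2 : D a σ / n ^ 2 + (s a / n + D a σ ^ 2 / (n ^ 3 * s a)) =
          ((D a σ + n * s a / 2) ^ 2 + 3 / 4 * (n * s a) ^ 2) / (n ^ 3 * s a) := by
        field_simp
        ring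
      have e3 : 0 ≤ D a σ / n ^ 2 + (s a / n + D a σ ^ 2 / (n ^ 3 * s a)) := by
        rw [e2]
        positivity
      linarith
  have hg2 : ∀ a, ∑ σ, g a σ ≤ (2 ^ d) ^ (n ^ 2) * (3 / n * s a) := by
    intro a
    have h4 := dev (fun i => q a (e i)) (n ^ 2)
    simp only [hg, sum_add_distrib, ← sum_div, sum_const, card_univ, Fintype.card_fun,
      Fintype.card_fin, Fintype.card_bool, nsmul_eq_mul]
    push_cast at h4 ⊢
    rcases (hs0 a).eq_or_lt with h | h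
    · simp [← h]
    · have h5 : (∑ σ, D a σ ^ 2) / (n ^ 3 * s a) ≤ (2 ^ d) ^ (n ^ 2) * (2 / n * s a) := by
        rw [div_le_iff₀ (by positivity)]
        refine h4.trans (le_of_eq ?_)
        change _ * s a ^ 2 = _
        field_simp
      have h6 : (2 ^ d) ^ (n ^ 2) * (3 / n * s a) =
          (2 ^ d) ^ (n ^ 2) * s a / n + (2 ^ d) ^ (n ^ 2) * (2 / n * s a) := by
        field_simp
        ring
      linarith
  have hsum : ∑ a, s a = ∑ i, ‖e i‖ ^ 2 := by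
    simp only [hs]
    rw [sum_comm]
    simp only [h2]
  have h7 : ∀ σ, 3 / n * ∑ i, ‖e i‖ ^ 2 < ∑ a, g a σ := by
    intro σ
    obtain ⟨T, hT⟩ := h3 (x σ) (List.mem_map.2 ⟨σ, by simp, rfl⟩)
    have h8 := hlt σ
    simp only [← hT] at h8
    rw [sum_comm, sum_comm (s := univ) (t := T), sum_div] at h8
    have h9 : ∑ a ∈ T, s a ≤ _ := sum_le_sum fun a _ => hg1 a σ
    rw [sum_add_distrib] at h9
    have h10 : ∑ a ∈ T, g a σ ≤ ∑ a, g a σ :=
      sum_le_sum_of_subset_of_nonneg (subset_univ _) fun a _ _ => hg0 a σ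
    simp only [hs] at h9
    linarith
  have h11 := sum_lt_sum_of_nonempty (s := univ) univ_nonempty fun σ _ => h7 σ
  rw [sum_comm] at h11
  have h12 := sum_le_sum (s := univ) fun a _ => hg2 a
  rw [← mul_sum, ← mul_sum, hsum] at h12
  simp only [sum_const, card_univ, Fintype.card_fun, Fintype.card_fin, Fintype.card_bool,
    nsmul_eq_mul] at h11
  push_cast at h11
  linarith

end Pool.Agent.H.MP_10cf3c_an
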