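import Pool.Agent.H.MP_10cf3c_an.A

set_option autoImplicit false
set_option linter.unusedSectionVars false

namespace Pool.Agent.H.MP_10cf3c_an

open scoped InnerProductSpace Topology
open Finset Filter Module

variable {H : Type*} [NormedAddCommGroup H] [InnerProductSpace ℂ H] [CompleteSpace H]

theorem proj_inner {x : H →L[ℂ] H} (hx : IsStarProjection x) (u v : H) :
    ⟪x u, x v⟫_ℂ = ⟪x u, v⟫_ℂ := by
  rw [← ContinuousLinearMap.adjoint_inner_left, ← ContinuousLinearMap.star_eq_adjoint,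
    hx.isSelfAdjoint.star_eq, ← mul_apply_eq_comp, hx.isIdempotentElem.eq]

theorem proj_sym {x : H →L[ℂ] H} (hx : IsStarProjection x) (u v : H) :
    ⟪x u, v⟫_ℂ = ⟪u, x v⟫_ℂ := by
  rw [← ContinuousLinearMap.adjoint_inner_right, ← ContinuousLinearMap.star_eq_adjoint,
    hx.isSelfAdjoint.star_eq]

theorem proj_re {x : H →L[ℂ] H} (hx : IsStarProjection x) (u : H) :
    ⟪u, x u⟫_ℂ = (‖x u‖ ^ 2 : ℝ) := by
  rw [← proj_sym hx, ← proj_inner hx, inner_self_eq_norm_sq_to_K]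
  simp

theorem spec (E : Submodule ℂ H) [FiniteDimensional ℂ E] {x : H →L[ℂ] H}
    (hx : IsStarProjection x) (δ : ℝ) (hδ : 0 ≤ δ) :
    ∃ W : Submodule ℂ H, W ≤ E ∧
      δ * finrank ℂ W ≤ ∑ i, ‖x (stdOrthonormalBasis ℂ E i)‖ ^ 2 ∧
      ∀ v ∈ E, v ∈ Wᗮ → ‖x v‖ ^ 2 ≤ δ * ‖v‖ ^ 2 := by
  classical
  let T : E →ₗ[ℂ] E := (E.orthogonalProjectionOnto ∘L x ∘L E.subtypeL : E →L[ℂ] E)
  have hT : ∀ u v : E, ⟪u, T v⟫_ℂ = ⟪(u : H), x v⟫_ℂ := fun u v =>
    Submodule.inner_orthogonalProjectionOnto_eq_of_mem_left u (x v)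
  have hs : T.IsSymmetric := by
    intro u v
    rw [← inner_conj_symm, hT, hT, inner_conj_symm, proj_sym hx]
  set b := hs.eigenvectorBasis rfl with hb
  set l := hs.eigenvalues rfl with hl
  have hb1 : ∀ i, T (b i) = (l i : ℂ) • b i := hs.apply_eigenvectorBasis rfl
  have hl1 : ∀ i, l i = ‖x (b i)‖ ^ 2 := by
    intro i
    have h1 := hT (b i) (b i)
    rw [hb1, inner_smul_right, proj_re hx, inner_self_eq_norm_sq_to_K, b.norm_eq_one] at h1
    apply Complex.ofReal_injective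
    simpa using h1
  have htr : ∑ i, l i = ∑ i, ‖x (stdOrthonormalBasis ℂ E i)‖ ^ 2 := by
    have h1 := T.trace_eq_sum_inner b
    rw [T.trace_eq_sum_inner (stdOrthonormalBasis ℂ E)] at h1
    simp only [hT, proj_re hx] at h1
    simp only [hl1]
    exact_mod_cast h1.symm
  set S := univ.filter fun i => δ < l i with hS
  refine ⟨Submodule.span ℂ (S.image fun i => (b i : H) : Finset H), ?_, ?_, ?_⟩
  · rw [Submodule.span_le]
    intro v hv
    obtain ⟨i, -, rfl⟩ := mem_image.1 hv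
    exact (b i).2
  · have h1 : finrank ℂ (Submodule.span ℂ (S.image fun i => (b i : H) : Finset H) :
        Submodule ℂ H) ≤ S.card :=
      (finrank_span_finset_le_card _).trans card_image_le
    calc δ * finrank ℂ _ ≤ δ * S.card := by gcongr
      _ = ∑ i ∈ S, δ := by simp [mul_comm]
      _ ≤ ∑ i ∈ S, l i := sum_le_sum fun i hi => (mem_filter.1 hi).2.le
      _ ≤ ∑ i, l i := sum_le_sum_of_subset_of_nonneg (subset_univ _) fun i _ _ => by
          rw [hl1]; positivity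
      _ = _ := htr
  · intro v hv hW
    lift v to E using hv
    have h1 := b.sum_inner_mul_inner v (T v)
    rw [hT, proj_re hx] at h1
    have h2 : ∀ i, ⟪v, b i⟫_ℂ * ⟪b i, T v⟫_ℂ = (l i * ‖⟪b i, v⟫_ℂ‖ ^ 2 : ℝ) := by
      intro i
      rw [← hs, hb1, inner_smul_left, ← inner_conj_symm v, mul_left_comm, Complex.conj_mul']
      simp
    simp only [h2] at h1
    have h3 : ∑ i, l i * ‖⟪b i, v⟫_ℂ‖ ^ 2 = ‖x v‖ ^ 2 := by exact_mod_cast h1
    rw [← h3, ← Submodule.coe_norm, ← b.sum_sq_norm_inner_right, mul_sum]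
    refine sum_le_sum fun i _ => ?_
    by_cases hi : δ < l i
    · have : ⟪b i, v⟫_ℂ = 0 := hW _ (Submodule.subset_span
        (mem_coe.2 (mem_image_of_mem _ (mem_filter.2 ⟨mem_univ _, hi⟩))))
      simp [this]
    · gcongr
      exact not_lt.1 hi

/-- rapidly growing chain of finite-dimensional subspaces -/
structure Chain (H : Type*) [NormedAddCommGroup H] [InnerProductSpace ℂ H] where
  L : ℕ → Submodule ℂ H
  fin : ∀ k, FiniteDimensional ℂ (L k)
  mono : Monotone L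
  dense : ⊤ ≤ (⨆ t, L t).topologicalClosure
  grow : ∀ k, (k + 1) * (finrank ℂ (L k) + (k + 1) ^ 2) ≤
    finrank ℂ ((L k)ᗮ ⊓ L (k + 1) : Submodule ℂ H)

/-- block ends -/
def aa : ℕ → ℕ
  | 0 => 0
  | k + 1 => aa k + (k + 1) * (aa k + (k + 1) ^ 2)

theorem aa_mono : StrictMono aa := strictMono_nat_of_lt_succ fun k => by
  simp only [aa]
  have : 0 < (k + 1) * (aa k + (k + 1) ^ 2) := by positivity
  omega

theorem exists_chain (b : HilbertBasis ℕ ℂ H) : Nonempty (Chain H) := by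
  let L : ℕ → Submodule ℂ H := fun k =>
    Submodule.span ℂ (Set.range fun i : Fin (aa k) => b i)
  have hf : ∀ k, FiniteDimensional ℂ (L k) := fun k =>
    FiniteDimensional.span_of_finite _ (Set.finite_range _)
  have hm : Monotone L := by
    intro k l hkl
    refine Submodule.span_mono ?_
    rintro _ ⟨i, rfl⟩
    exact ⟨⟨i, i.2.trans_le (aa_mono.monotone hkl)⟩, rfl⟩
  have hr : ∀ k, finrank ℂ (L k) = aa k := fun k => by
    exact (finrank_span_eq_card (b.orthonormal.linearIndependent.comp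
      (Fin.val : Fin (aa k) → ℕ) Fin.val_injective)).trans (Fintype.card_fin _)
  refine ⟨⟨L, hf, hm, ?_, fun k => ?_⟩⟩
  · rw [← b.dense_span]
    refine Submodule.topologicalClosure_mono (Submodule.span_le.2 ?_)
    rintro _ ⟨i, rfl⟩
    exact Submodule.mem_iSup_of_mem (i + 1) (Submodule.subset_span
      ⟨⟨i, (Nat.lt_succ_self i).trans_le (aa_mono.id_le _)⟩, rfl⟩)
  · have := hf (k + 1)
    rw [Submodule.finrank_add_inf_finrank_orthogonal' (hm k.le_succ)
      (n := (k + 1) * (aa k + (k + 1) ^ 2)) (by rw [hr, hr]; rfl), hr]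

namespace Chain

variable (C : Chain H)

instance (k : ℕ) : FiniteDimensional ℂ (C.L k) := C.fin k

/-- blocks -/
noncomputable def E (k : ℕ) : Submodule ℂ H := (C.L k)ᗮ ⊓ C.L (k + 1)

instance (k : ℕ) : FiniteDimensional ℂ (C.E k) :=
  Submodule.finiteDimensional_of_le (inf_le_right : C.E k ≤ C.L (k + 1))

/-- chain projections -/
noncomputable def Q (k : ℕ) : H →L[ℂ] H := (C.L k).starProjection

theorem Q_tendsto (v : H) : Tendsto (fun k => C.Q k v) atTop (𝓝 v) :=
  Submodule.starProjection_tendsto_self C.L C.mono v C.dense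

theorem Q_mem (k : ℕ) (v : H) : C.Q k v ∈ C.L k := Submodule.starProjection_apply_mem _ _

theorem sub_Q_mem (k : ℕ) (v : H) : v - C.Q k v ∈ (C.L k)ᗮ :=
  Submodule.sub_starProjection_mem_orthogonal _

theorem P_mem (k : ℕ) (v : H) : C.Q (k + 1) v - C.Q k v ∈ C.E k := by
  refine ⟨?_, sub_mem (C.Q_mem _ _) (C.mono k.le_succ (C.Q_mem _ _))⟩
  have : C.Q (k + 1) v - C.Q k v = (v - C.Q k v) - (v - C.Q (k + 1) v) := by abel
  rw [this]
  exact sub_mem (C.sub_Q_mem _ _) (Submodule.orthogonal_le (C.mono k.le_succ) (C.sub_Q_mem _ _))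

theorem inner_P {k : ℕ} {w : H} (hw : w ∈ C.E k) (v : H) :
    ⟪w, C.Q (k + 1) v - C.Q k v⟫_ℂ = ⟪w, v⟫_ℂ := by
  have h1 := C.sub_Q_mem (k + 1) v w hw.2
  have h2 := hw.1 _ (C.Q_mem k v)
  rw [inner_eq_zero_symm] at h2
  rw [inner_sub_right] at h1 ⊢
  rw [h2, sub_zero]
  exact (sub_eq_zero.1 h1).symm

theorem E_orth {k l : ℕ} (h : k ≠ l) {u v : H} (hu : u ∈ C.E k) (hv : v ∈ C.E l) :
    ⟪u, v⟫_ℂ = 0 := by
  rcases h.lt_or_gt with h | h
  · exact hv.1 _ (C.mono h hu.2)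
  · exact inner_eq_zero_symm.1 (hu.1 _ (C.mono h hv.2))

theorem cpt_null {K : H →L[ℂ] H} (hK : IsCompactOperator K) (u : ℕ → H)
    (hu : ∀ k, u k ∈ (C.L k)ᗮ) (hn : ∀ k, ‖u k‖ ≤ 1) : Tendsto (fun k => K (u k)) atTop (𝓝 0) := by
  obtain ⟨S, hS, hS'⟩ := hK.image_closedBall_subset_compact (f := (K : H →ₗ[ℂ] H)) 1
  refine hS.tendsto_nhds_of_unique_mapClusterPt
    (Eventually.of_forall fun k => hS' ⟨u k, by simpa using hn k, rfl⟩) fun y _ hy => ?_
  have h1 := hy.continuousAt_comp (f := fun z => ⟪y, z⟫_ℂ) (by fun_prop)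
  have h2 : Tendsto ((fun z => ⟪y, z⟫_ℂ) ∘ fun k => K (u k)) atTop (𝓝 0) := by
    set z := ContinuousLinearMap.adjoint K y
    have h3 : Tendsto (fun k => ‖z - C.Q k z‖) atTop (𝓝 0) := by
      simpa using ((C.Q_tendsto z).const_sub z).norm
    refine squeeze_zero_norm (fun k => ?_) h3
    have h4 : ⟪y, K (u k)⟫_ℂ = ⟪z - C.Q k z, u k⟫_ℂ := by
      rw [inner_sub_left, hu k _ (C.Q_mem k z), sub_zero, ContinuousLinearMap.adjoint_inner_left]
    simp only [Function.comp, h4]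
    calc _ ≤ ‖z - C.Q k z‖ * ‖u k‖ := norm_inner_le_norm _ _
      _ ≤ ‖z - C.Q k z‖ * 1 := by gcongr; exact hn k
      _ = _ := mul_one _
  have h5 := eq_of_nhds_neBot (h1.clusterPt.mono h2)
  exact inner_self_eq_zero.1 h5

theorem cpt_unif {K : H →L[ℂ] H} (hK : IsCompactOperator K) {ε : ℝ} (hε : 0 < ε) :
    ∀ᶠ k in atTop, ∀ u ∈ (C.L k)ᗮ, ‖K u‖ ≤ ε * ‖u‖ := by
  have : ∀ k, ∃ u ∈ (C.L k)ᗮ, ‖u‖ ≤ 1 ∧ (‖K u‖ < ε → ∀ v ∈ (C.L k)ᗮ, ‖K v‖ ≤ ε * ‖v‖) := by
    intro k
    by_cases h : ∀ v ∈ (C.L k)ᗮ, ‖K v‖ ≤ ε * ‖v‖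
    · exact ⟨0, zero_mem _, by simp, fun _ => h⟩
    · push Not at h
      obtain ⟨v, hv, h⟩ := h
      have hv0 : v ≠ 0 := by
        rintro rfl
        simp at h
      have hp : 0 < ‖v‖ := norm_pos_iff.2 hv0
      refine ⟨((‖v‖⁻¹ : ℝ) : ℂ) • v, Submodule.smul_mem _ _ hv, ?_, fun h' => ?_⟩
      · simp [norm_smul, hp.ne']
      · exfalso
        rw [map_smul, norm_smul, Complex.norm_real, Real.norm_of_nonneg (by positivity),
          inv_mul_lt_iff₀ hp] at h'
        linarith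
  choose u h1 h2 h3 using this
  have h4 := (C.cpt_null hK u h1 h2).norm
  rw [norm_zero] at h4
  exact (h4.eventually (gt_mem_nhds hε)).mono h3

/-- families of subspaces of vanishing density -/
def Small (W : ℕ → Submodule ℂ H) : Prop :=
  (∀ k, W k ≤ C.E k) ∧ Tendsto (fun k => (finrank ℂ (W k) : ℝ) / finrank ℂ (C.E k)) atTop (𝓝 0)

theorem d_pos (k : ℕ) : (0 : ℝ) < finrank ℂ (C.E k) := by
  have h1 := C.grow k
  have h2 : 0 < (k + 1) * (finrank ℂ (C.L k) + (k + 1) ^ 2) := by positivity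
  exact_mod_cast h2.trans_le h1

theorem small_of_le {W : ℕ → Submodule ℂ H} (h : ∀ k, W k ≤ C.E k)
    (h' : ∀ k, finrank ℂ (W k) ≤ finrank ℂ (C.L k) + (k + 1) ^ 2) : C.Small W := by
  refine ⟨h, squeeze_zero (fun k => by positivity) (fun k => ?_)
    tendsto_one_div_add_atTop_nhds_zero_nat⟩
  rw [div_le_div_iff₀ (C.d_pos k) (by positivity), one_mul, mul_comm]
  exact_mod_cast (Nat.mul_le_mul_left _ (h' k)).trans (C.grow k)

theorem Small.sup {C : Chain H} {W W' : ℕ → Submodule ℂ H} (h : C.Small W) (h' : C.Small W') :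
    C.Small fun k => W k ⊔ W' k := by
  refine ⟨fun k => sup_le (h.1 k) (h'.1 k), squeeze_zero (fun k => by positivity) (fun k => ?_)
    (by simpa using h.2.add h'.2)⟩
  have := Submodule.finiteDimensional_of_le (h.1 k)
  have := Submodule.finiteDimensional_of_le (h'.1 k)
  rw [← add_div]
  gcongr
  exact_mod_cast Submodule.finrank_add_le_finrank_add_finrank _ _

end Chain

/-- the projection killing all `W k` -/
noncomputable def pW (W : ℕ → Submodule ℂ H) : H →L[ℂ] H := (⨆ k, W k)ᗮ.starProjection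

theorem pW_proj (W : ℕ → Submodule ℂ H) : IsStarProjection (pW W) :=
  isStarProjection_starProjection

theorem pW_mul {W W' : ℕ → Submodule ℂ H} (h : ∀ k, W k ≤ W' k) : pW W' * pW W = pW W' := by
  have h1 : pW W * pW W' = pW W' := by
    ext v
    exact Submodule.starProjection_eq_self_iff.2 (Submodule.orthogonal_le (iSup_mono h)
      (Submodule.starProjection_apply_mem _ _))
  simpa [(pW_proj _).isSelfAdjoint.star_eq] using congrArg star h1

theorem pW_zero {W : ℕ → Submodule ℂ H} {k : ℕ} {v : H} (hv : v ∈ W k) : pW W v = 0 :=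
  (Submodule.starProjection_apply_eq_zero_iff _).2
    (Submodule.le_orthogonal_orthogonal _ (Submodule.mem_iSup_of_mem k hv))

theorem pW_orth (W : ℕ → Submodule ℂ H) (k : ℕ) (v : H) : pW W v ∈ (W k)ᗮ :=
  Submodule.orthogonal_le (le_iSup W k) (Submodule.starProjection_apply_mem _ _)

theorem Chain.Small.not_compact {C : Chain H} {W : ℕ → Submodule ℂ H} (h : C.Small W) :
    ¬ IsCompactOperator (pW W) := by
  intro hc
  obtain ⟨k, h1, h2⟩ := ((C.cpt_unif hc one_half_pos).and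
    (h.2.eventually (gt_mem_nhds one_pos))).exists
  rw [div_lt_one (C.d_pos k)] at h2
  have h3 := Submodule.finrank_add_inf_finrank_orthogonal (h.1 k)
  have h4 : 0 < finrank ℂ ((W k)ᗮ ⊓ C.E k : Submodule ℂ H) := by
    have : finrank ℂ (W k) < finrank ℂ (C.E k) := by exact_mod_cast h2
    omega
  obtain ⟨⟨v, hv1, hv2⟩, hv⟩ := finrank_pos_iff_exists_ne_zero.1 h4
  have hv0 : v ≠ 0 := fun h => hv (Subtype.ext h)
  have h5 : pW W v = v := by
    refine Submodule.starProjection_eq_self_iff.2 ?_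
    rw [← Submodule.iInf_orthogonal, Submodule.mem_iInf]
    intro l w hw
    by_cases hl : l = k
    · subst hl
      exact hv1 w hw
    · exact C.E_orth hl (h.1 l hw) hv2
  have h6 := h1 v hv2.1
  rw [h5] at h6
  have := norm_pos_iff.2 hv0
  linarith

theorem Chain.compact_of (C : Chain H) {x : H →L[ℂ] H} (hx : IsStarProjection x)
    {W : ℕ → Submodule ℂ H} (hW : ∀ k, W k ≤ C.E k) {δ : ℕ → ℝ} (hδ : Tendsto δ atTop (𝓝 0))
    (h1 : ∀ k, ∀ v ∈ C.E k, v ∈ (W k)ᗮ → ‖x v‖ ^ 2 ≤ δ k * ‖v‖ ^ 2)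
    (h2 : ∀ k, ∀ u ∈ C.L k, C.Q (k + 1) (x u) - C.Q k (x u) ∈ W k) :
    IsCompactOperator (x * pW W : H →L[ℂ] H) := by
  refine isCompactOperator_of_tendsto (l := atTop) (F := fun N => x * C.Q N * pW W) ?_
    (Eventually.of_forall fun N => ?_)
  · rw [Metric.tendsto_nhds]
    intro ε hε
    obtain ⟨N0, hN0⟩ := eventually_atTop.1 (hδ.eventually (gt_mem_nhds (a := (ε / 2) ^ 2)
      (by positivity)))
    refine eventually_atTop.2 ⟨N0, fun N hN => ?_⟩
    rw [dist_comm, dist_eq_norm]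
    refine lt_of_le_of_lt (ContinuousLinearMap.opNorm_le_bound _ (half_pos hε).le fun ξ => ?_)
      (half_lt_self hε)
    set η := pW W ξ with hη
    have key : ∀ M, N ≤ M →
        ‖x (C.Q M η - C.Q N η)‖ ^ 2 ≤ (ε / 2) ^ 2 * ‖C.Q M η - C.Q N η‖ ^ 2 := by
      intro M hM
      induction M, hM using Nat.le_induction with
      | base => simp
      | succ M hM ih =>
        set u := C.Q M η - C.Q N η with hu
        set v := C.Q (M + 1) η - C.Q M η with hv
        have e : C.Q (M + 1) η - C.Q N η = u + v := by rw [hu, hv]; abel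
        have hu1 : u ∈ C.L M := sub_mem (C.Q_mem _ _) (C.mono hM (C.Q_mem _ _))
        have hv1 : v ∈ C.E M := C.P_mem _ _
        have hv2 : v ∈ (W M)ᗮ := fun w hw => by
          rw [hv, C.inner_P (hW M hw)]
          exact pW_orth W M ξ w hw
        have o1 : ⟪u, v⟫_ℂ = 0 := hv1.1 _ hu1
        have o2 : ⟪x u, x v⟫_ℂ = 0 := by
          rw [proj_inner hx, inner_eq_zero_symm, ← C.inner_P hv1, inner_eq_zero_symm]
          exact hv2 _ (h2 M u hu1)
        have n1 := norm_add_sq_eq_norm_sq_add_norm_sq_of_inner_eq_zero _ _ o1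
        have n2 := norm_add_sq_eq_norm_sq_add_norm_sq_of_inner_eq_zero _ _ o2
        have n3 := h1 M v hv1 hv2
        have n4 : δ M * ‖v‖ ^ 2 ≤ (ε / 2) ^ 2 * ‖v‖ ^ 2 := by
          gcongr
          exact (hN0 M (hN.trans hM)).le
        rw [e, map_add, sq, sq ‖u + v‖, n1, n2]
        nlinarith
    have t1 := (C.Q_tendsto η).sub_const (C.Q N η)
    have key2 : ‖x (η - C.Q N η)‖ ^ 2 ≤ (ε / 2) ^ 2 * ‖η - C.Q N η‖ ^ 2 :=
      le_of_tendsto_of_tendsto (((x.continuous.tendsto _).comp t1).norm.pow 2)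
        ((t1.norm.pow 2).const_mul _) (eventually_atTop.2 ⟨N, key⟩)
    have h3 : ‖η - C.Q N η‖ ≤ ‖ξ‖ := by
      rw [Chain.Q, ← Submodule.starProjection_orthogonal_val]
      exact (Submodule.norm_starProjection_apply_le _ _).trans
        (Submodule.norm_starProjection_apply_le _ _)
    have h4 : (x * pW W - x * C.Q N * pW W) ξ = x (η - C.Q N η) := by
      simp [hη, mul_apply_eq_comp]
    rw [h4]
    refine le_trans (abs_le_of_sq_le_sq' (key2.trans_eq (mul_pow _ _ _).symm) (by positivity)).2 ?_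
    gcongr
  · have : IsCompactOperator (C.Q N) :=
      (isCompactOperator_of_locallyCompactSpace_dom (C.L N).orthogonalProjectionOnto).clm_comp
        (C.L N).subtypeL
    exact (this.clm_comp x).comp_clm (pW W)

theorem Chain.main (C : Chain H) (X : Set (H →L[ℂ] H)) (hX : ∀ x ∈ X, IsStarProjection x)
    (hc : ∀ x ∈ X, ∀ y ∈ X, x * y = y * x)
    (h : ∀ W, C.Small W → ∃ x ∈ X, IsCompactOperator (x * pW W - x : H →L[ℂ] H)) :
    ∃ x ∈ X, ∃ W, C.Small W ∧ IsCompactOperator (x * pW W : H →L[ℂ] H) := by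
  let e : ∀ k, Fin (finrank ℂ (C.E k)) → H := fun k i => stdOrthonormalBasis ℂ (C.E k) i
  have he : ∀ k, ∑ i, ‖e k i‖ ^ 2 = finrank ℂ (C.E k) := by
    intro k
    simp only [e, ← Submodule.coe_norm, (stdOrthonormalBasis ℂ (C.E k)).norm_eq_one]
    simp
  choose σ hσ using fun k => fd X hX hc (e k) (k + 1) k.succ_pos
  have hsv : ∀ k j, sv (σ k j) (e k) ∈ C.E k := fun k j =>
    Submodule.sum_mem _ fun i _ => by
      split_ifs
      · exact Subtype.property _
      · exact neg_mem (Subtype.property _)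
  have hsn : ∀ k j, ‖sv (σ k j) (e k)‖ ^ 2 = finrank ℂ (C.E k) := by
    intro k j
    have h1 : sv (σ k j) (e k) = ((∑ i, (if σ k j i then (1 : ℂ) else -1) •
        stdOrthonormalBasis ℂ (C.E k) i : C.E k) : H) := by
      rw [Submodule.coe_sum]
      exact sum_congr rfl fun i _ => by split_ifs <;> simp [e]
    rw [h1, ← Submodule.coe_norm, ← (stdOrthonormalBasis ℂ (C.E k)).sum_sq_norm_inner_right]
    simp only [(stdOrthonormalBasis ℂ (C.E k)).orthonormal.inner_right_fintype]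
    rw [sum_congr rfl (g := fun _ => (1 : ℝ)) fun i _ => by split_ifs <;> simp]
    simp
  obtain ⟨x, hx, hK⟩ := h (fun k => Submodule.span ℂ (Set.range fun j => sv (σ k j) (e k)))
    (C.small_of_le (fun k => Submodule.span_le.2 (by rintro _ ⟨j, rfl⟩; exact hsv k j))
      fun k => le_add_left ((finrank_range_le_card _).trans (by simp)))
  set t : ℕ → ℝ := fun k => (∑ i, ‖x (e k i)‖ ^ 2) / finrank ℂ (C.E k) with ht
  have ht0 : ∀ k, 0 ≤ t k := fun k => div_nonneg (sum_nonneg fun _ _ => by positivity) (by positivity)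
  have ht1 : Tendsto t atTop (𝓝 0) := by
    rw [Metric.tendsto_nhds]
    intro ε hε
    have h3 : Tendsto (fun k : ℕ => 3 * (1 / ((k : ℝ) + 1))) atTop (𝓝 0) := by
      simpa using (tendsto_one_div_add_atTop_nhds_zero_nat (𝕜 := ℝ)).const_mul 3
    filter_upwards [C.cpt_unif hK (Real.sqrt_pos.2 (half_pos hε)),
      h3.eventually (gt_mem_nhds (half_pos hε))] with k h4 h5
    rw [Real.dist_0_eq_abs, abs_of_nonneg (ht0 k)]
    have h6 := hσ k x hx
    have h7 : ∀ j, ‖x (sv (σ k j) (e k))‖ ^ 2 ≤ ε / 2 * finrank ℂ (C.E k) := by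
      intro j
      have h8 := h4 _ (hsv k j).1
      rw [sub_apply, mul_apply_eq_comp, pW_zero (k := k) (Submodule.subset_span (Set.mem_range_self j)),
        map_zero, zero_sub, norm_neg] at h8
      calc _ ≤ (√(ε / 2) * ‖sv (σ k j) (e k)‖) ^ 2 := by gcongr
        _ = _ := by rw [mul_pow, Real.sq_sqrt (half_pos hε).le, hsn]
    have h9 : (∑ j, ‖x (sv (σ k j) (e k))‖ ^ 2) / ((k + 1 : ℕ) : ℝ) ^ 2 ≤
        ε / 2 * finrank ℂ (C.E k) := by
      rw [div_le_iff₀ (by positivity)]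
      refine (sum_le_sum fun j _ => h7 j).trans (le_of_eq ?_)
      simp [mul_comm]
    rw [he] at h6
    have hd := C.d_pos k
    simp only [ht]
    rw [div_lt_iff₀ hd]
    have h10 : 3 / ((k + 1 : ℕ) : ℝ) * finrank ℂ (C.E k) < ε / 2 * finrank ℂ (C.E k) := by
      refine mul_lt_mul_of_pos_right ?_ hd
      push_cast
      rwa [mul_one_div] at h5
    linarith
  set δ : ℕ → ℝ := fun k => √(t k) + 1 / ((k : ℝ) + 1) with hδ
  have hδ0 : ∀ k, 0 < δ k := fun k => by simp only [hδ]; positivity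
  have hs1 : Tendsto (fun k => √(t k)) atTop (𝓝 0) := by simpa using ht1.sqrt
  have hδ1 : Tendsto δ atTop (𝓝 0) := by
    simpa [hδ] using hs1.add (tendsto_one_div_add_atTop_nhds_zero_nat (𝕜 := ℝ))
  choose W1 a1 a2 a3 using fun k => spec (C.E k) (hX x hx) (δ k) (hδ0 k).le
  have s1 : C.Small W1 := by
    refine ⟨a1, squeeze_zero (fun k => by positivity) (fun k => ?_) hs1⟩
    have hd := C.d_pos k
    have h3 : δ k * (finrank ℂ (W1 k) / finrank ℂ (C.E k)) ≤ t k := by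
      rw [← mul_div_assoc]
      simp only [ht]
      gcongr
      exact a2 k
    refine le_of_mul_le_mul_left (h3.trans ?_) (hδ0 k)
    have h4 := Real.mul_self_sqrt (ht0 k)
    have h5 : 0 ≤ 1 / ((k : ℝ) + 1) * √(t k) := by positivity
    simp only [hδ]
    nlinarith
  let W2 : ℕ → Submodule ℂ H := fun k =>
    (C.L k).map (((C.Q (k + 1) - C.Q k) * x : H →L[ℂ] H) : H →ₗ[ℂ] H)
  have s2 : C.Small W2 := C.small_of_le (fun k => by
    rintro _ ⟨u, -, rfl⟩
    exact C.P_mem k _) fun k => le_add_right (Submodule.finrank_map_le _ _)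
  refine ⟨x, hx, _, s1.sup s2, C.compact_of (hX x hx) (s1.sup s2).1 hδ1
    (fun k v hv hv' => a3 k v hv (Submodule.orthogonal_le le_sup_left hv'))
    fun k u hu => Submodule.mem_sup_right ⟨u, hu, rfl⟩⟩

end Pool.Agent.H.MP_10cf3c_an
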