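import Mathlib

set_option autoImplicit false

namespace Pool.Agent.H.MP_10cf3c_an

open scoped InnerProductSpace

section general
variable {A : Type*} [Mul A] [Star A]

/-- A filter of projections; the order is `p ≤ q ↔ p * q = p`. -/
def IsFilter (F : Set A) : Prop :=
  (∀ p ∈ F, IsStarProjection p) ∧ (∀ p ∈ F, ∀ q ∈ F, ∃ r ∈ F, r * p = r ∧ r * q = r) ∧
    ∀ p ∈ F, ∀ r, IsStarProjection r → p * r = p → r ∈ F

/-- A proper filter that is not strictly contained in another proper filter. -/
def IsMaximalFilter [Zero A] (F : Set A) : Prop :=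
  IsFilter F ∧ 0 ∉ F ∧ ∀ G : Set A, IsFilter G → 0 ∉ G → F ⊆ G → G = F

/-- The family generated by `X`: the intersection of all filters of projections containing `X`. -/
def generated (X : Set A) : Set A :=
  {p | IsStarProjection p ∧ ∀ F : Set A, IsFilter F → X ⊆ F → p ∈ F}

end general

variable {H : Type*} [NormedAddCommGroup H] [InnerProductSpace ℂ H] [CompleteSpace H]

theorem compact_star {K : H →L[ℂ] H} (hK : IsCompactOperator K) :
    IsCompactOperator (star K : H →L[ℂ] H) := by
  have h1 : IsCompactOperator (K * star K : H →L[ℂ] H) := hK.comp_clm (star K)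
  refine (isCompactOperator_iff_isCompact_closure_image_ball
    ((star K : H →L[ℂ] H) : H →ₗ[ℂ] H) one_pos).2 ?_
  refine TotallyBounded.isCompact_of_isClosed (TotallyBounded.closure ?_) isClosed_closure
  have h2 := (h1.isCompact_closure_image_ball (f := ((K * star K : H →L[ℂ] H) : H →ₗ[ℂ] H))
    1).totallyBounded.subset subset_closure
  rw [Metric.totallyBounded_iff]
  intro ε hε
  obtain ⟨t, ht, htf, hc⟩ := totallyBounded_iff_subset.1 h2 _
    (Metric.dist_mem_uniformity (ε := ε ^ 2 / 2) (by positivity))
  choose! g hg hg' using fun (y : H) (hy : y ∈ t) => ht hy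
  refine ⟨(fun y => (star K : H →L[ℂ] H) (g y)) '' t, htf.image _, ?_⟩
  rintro _ ⟨v, hv, rfl⟩
  obtain ⟨y, hy, h3⟩ := Set.mem_iUnion₂.1 (hc ⟨v, hv, rfl⟩)
  refine Set.mem_biUnion (Set.mem_image_of_mem _ hy) ?_
  rw [Metric.mem_ball, dist_eq_norm]
  have h4 : ‖K (star K (v - g y))‖ < ε ^ 2 / 2 := by
    rw [← hg' y hy] at h3
    simpa [dist_eq_norm, mul_apply_eq_comp] using h3
  have h5 : ‖v - g y‖ ≤ 2 := by
    have a1 := mem_ball_zero_iff.1 hv
    have a2 := mem_ball_zero_iff.1 (hg y hy)
    linarith [norm_sub_le v (g y)]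
  have h6 : ‖star K (v - g y)‖ ^ 2 ≤ ‖v - g y‖ * ‖K (star K (v - g y))‖ := by
    rw [← inner_self_eq_norm_sq (𝕜 := ℂ), ContinuousLinearMap.star_eq_adjoint,
      ContinuousLinearMap.adjoint_inner_left]
    exact re_inner_le_norm _ _
  have h7 : ‖star K (v - g y)‖ ^ 2 < ε ^ 2 := by
    nlinarith [norm_nonneg (K (star K (v - g y)))]
  simpa using lt_of_pow_lt_pow_left₀ 2 hε.le h7

variable (H) in
/-- Equality modulo compact operators. -/
def cong : RingCon (H →L[ℂ] H) where
  r a b := IsCompactOperator (a - b : H →L[ℂ] H)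
  iseqv := ⟨fun a => by simpa using isCompactOperator_zero,
    fun {a b} h => by rw [← neg_sub]; exact h.neg,
    fun {a b c} h h' => by rw [← sub_add_sub_cancel a b c]; exact h.add h'⟩
  mul' {a b c d} h h' := by
    have : a * c - b * d = (a - b) * c + b * (c - d) := by noncomm_ring
    rw [this]
    exact (IsCompactOperator.comp_clm h c).add (IsCompactOperator.clm_comp h' b)
  add' {a b c d} h h' := by
    rw [add_sub_add_comm]
    exact IsCompactOperator.add h h'

variable (H) in
/-- The Calkin algebra `B(H)/K(H)` (as a ring with involution). -/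
def Calkin : Type _ := (cong H).Quotient

noncomputable instance : Ring (Calkin H) := inferInstanceAs (Ring (cong H).Quotient)

theorem cong_star (a b : H →L[ℂ] H) (h : cong H a b) : cong H (star a) (star b) := by
  change IsCompactOperator (star a - star b : H →L[ℂ] H)
  rw [← star_sub]
  exact compact_star h

noncomputable instance : Star (Calkin H) := ⟨Quotient.map' star cong_star⟩

/-- The quotient map. -/
noncomputable def π : (H →L[ℂ] H) →+* Calkin H := (cong H).mk'

/-- `F` lifts to a filter generated by pairwise commuting projections of `B(H)`. -/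
def Lifts (F : Set (Calkin H)) : Prop :=
  ∃ X : Set (H →L[ℂ] H), (∀ p ∈ X, IsStarProjection p) ∧ (∀ p ∈ X, ∀ q ∈ X, p * q = q * p) ∧
    IsFilter (generated X) ∧ π '' generated X = F

end Pool.Agent.H.MP_10cf3c_an
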