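import Pool.Agent.H.MP_10cf3c_an.B
import Pool.Agent.H.MP_10cf3c_an.Defs

set_option autoImplicit false
set_option linter.unusedSectionVars false

namespace Pool.Agent.H.MP_10cf3c_an

theorem exists_maximal {A : Type*} [Mul A] [Star A] [Zero A] {F0 : Set A} (h : IsFilter F0)
    (h0 : 0 ∉ F0) : ∃ F, IsMaximalFilter F ∧ F0 ⊆ F := by
  obtain ⟨F, h1, h2⟩ := zorn_subset_nonempty {G : Set A | IsFilter G ∧ 0 ∉ G} (by
    intro c hc hch _
    refine ⟨⋃₀ c, ⟨⟨?_, ?_, ?_⟩, ?_⟩, fun s hs => Set.subset_sUnion_of_mem hs⟩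
    · rintro p ⟨G, hG, hp⟩
      exact (hc hG).1.1 p hp
    · rintro p ⟨G, hG, hp⟩ q ⟨G', hG', hq⟩
      rcases hch.total hG hG' with h | h
      · obtain ⟨r, hr, h'⟩ := (hc hG').1.2.1 p (h hp) q hq
        exact ⟨r, ⟨G', hG', hr⟩, h'⟩
      · obtain ⟨r, hr, h'⟩ := (hc hG).1.2.1 p hp q (h hq)
        exact ⟨r, ⟨G, hG, hr⟩, h'⟩
    · rintro p ⟨G, hG, hp⟩ r hr h'
      exact ⟨G, hG, (hc hG).1.2.2 p hp r hr h'⟩
    · rintro ⟨G, hG, hp⟩
      exact (hc hG).2 hp) F0 ⟨h, h0⟩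
  exact ⟨F, ⟨h2.prop.1, h2.prop.2, fun G a b c => (h2.eq_of_subset ⟨a, b⟩ c).symm⟩, h1⟩

variable {H : Type*} [NormedAddCommGroup H] [InnerProductSpace ℂ H] [CompleteSpace H]

theorem π_eq {a b : H →L[ℂ] H} : π a = π b ↔ IsCompactOperator (a - b : H →L[ℂ] H) :=
  (cong H).eq

theorem π_star (a : H →L[ℂ] H) : star (π a) = π (star a) := rfl

theorem π_proj {a : H →L[ℂ] H} (h : IsStarProjection a) : IsStarProjection (π a) :=
  ⟨h.isIdempotentElem.map π, by
    change star (π a) = π a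
    rw [π_star, h.isSelfAdjoint.star_eq]⟩

theorem not_lifts (C : Chain H) {F : Set (Calkin H)} (hF : IsFilter F) (h0 : 0 ∉ F)
    (hW : ∀ W, C.Small W → π (pW W) ∈ F) : ¬ Lifts F := by
  rintro ⟨X, hX, hc, hg, rfl⟩
  let X' : Set (H →L[ℂ] H) := Submonoid.closure X
  have c1 : ∀ x ∈ X', ∀ y ∈ X', x * y = y * x := by
    intro x hx y hy
    induction hx, hy using Submonoid.closure_induction₂ with
    | mem x y hx hy => exact hc x hx y hy
    | one_left => simp
    | one_right => simp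
    | mul_left x y z _ _ _ h1 h2 => rw [mul_assoc, h2, ← mul_assoc, h1, mul_assoc]
    | mul_right y z x _ _ _ h1 h2 => rw [← mul_assoc, h1, mul_assoc, h2, mul_assoc]
  have c2 : ∀ x ∈ X', IsStarProjection x := by
    intro x hx
    induction hx using Submonoid.closure_induction with
    | mem x hx => exact hX x hx
    | one => exact IsStarProjection.one _
    | mul x y hx hy h1 h2 => exact h1.mul h2 (c1 x hx y hy)
  have c3 : ∀ r ∈ generated X, ∃ x ∈ X', x * r = x := by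
    intro r hr
    refine (hr.2 {r | IsStarProjection r ∧ ∃ x ∈ X', x * r = x} ⟨fun p hp => hp.1, ?_, ?_⟩ ?_).2
    · rintro p ⟨-, x, hx, h1⟩ q ⟨-, y, hy, h2⟩
      have hxy : x * y ∈ X' := Submonoid.mul_mem _ hx hy
      refine ⟨x * y, ⟨c2 _ hxy, _, hxy, (c2 _ hxy).isIdempotentElem.eq⟩, ?_, ?_⟩
      · rw [c1 x hx y hy, mul_assoc, h1]
      · rw [mul_assoc, h2]
    · rintro p ⟨-, x, hx, h1⟩ r hr h2
      exact ⟨hr, x, hx, by rw [← h1, mul_assoc, h2]⟩
    · intro x hx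
      exact ⟨hX x hx, x, Submonoid.subset_closure hx, (hX x hx).isIdempotentElem.eq⟩
  have s0 : C.Small fun _ => ⊥ := C.small_of_le (fun _ => bot_le) fun _ => by simp
  have c4 : ∀ x ∈ X', x ∈ generated X := by
    intro x hx
    induction hx using Submonoid.closure_induction with
    | mem x hx => exact ⟨hX x hx, fun _ _ h => h hx⟩
    | one =>
      obtain ⟨r, hr, -⟩ := hW _ s0
      exact hg.2.2 r hr 1 (IsStarProjection.one _) (mul_one r)
    | mul x y hx hy h1 h2 =>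
      obtain ⟨r, hr, a1, a2⟩ := hg.2.1 x h1 y h2
      exact hg.2.2 r hr _ (c2 _ (Submonoid.mul_mem _ hx hy)) (by rw [← mul_assoc, a1, a2])
  obtain ⟨x, hx, W, hs, hK⟩ := C.main X' c2 c1 (by
    intro W hs
    obtain ⟨r, hr, h1⟩ := hW W hs
    obtain ⟨x, hx, h2⟩ := c3 r hr
    exact ⟨x, hx, π_eq.1 (by rw [map_mul, ← h1, ← map_mul, h2])⟩)
  obtain ⟨r, hr, a1, a2⟩ := hF.2.1 _ ⟨x, c4 x hx, rfl⟩ _ (hW W hs)
  have a3 : π x * π (pW W) = 0 := by
    rw [← map_mul, ← map_zero π, π_eq, sub_zero]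
    exact hK
  have a4 : r = 0 := by rw [← a2, ← a1, mul_assoc, a3, mul_zero]
  exact h0 (a4 ▸ hr)

theorem main (b : HilbertBasis ℕ ℂ H) :
    ∃ F : Set (Calkin H), IsMaximalFilter F ∧ ¬ Lifts F := by
  obtain ⟨C⟩ := exists_chain b
  obtain ⟨F, h1, h2⟩ := exists_maximal (F0 := {q : Calkin H | IsStarProjection q ∧
      ∃ W, C.Small W ∧ π (pW W) * q = π (pW W)}) ⟨fun p hp => hp.1, by
    rintro p ⟨-, W, hW, h1⟩ q ⟨-, W', hW', h2⟩
    have hp := π_proj (pW_proj fun k => W k ⊔ W' k)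
    refine ⟨_, ⟨hp, _, hW.sup hW', hp.isIdempotentElem.eq⟩, ?_, ?_⟩
    · rw [← pW_mul (W := W) fun k => le_sup_left, map_mul, mul_assoc, h1]
    · rw [← pW_mul (W := W') fun k => le_sup_right, map_mul, mul_assoc, h2], by
    rintro p ⟨-, W, hW, h1⟩ r hr h2
    exact ⟨hr, W, hW, by rw [← h1, mul_assoc, h2]⟩⟩ (by
    rintro ⟨-, W, hW, h1⟩
    rw [mul_zero, ← map_zero π, eq_comm, π_eq, sub_zero] at h1
    exact hW.not_compact h1)
  exact ⟨F, h1, not_lifts C h1.1 h1.2.1 fun W hW =>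
    h2 ⟨π_proj (pW_proj W), W, hW, (π_proj (pW_proj W)).isIdempotentElem.eq⟩⟩

theorem exists_basis [TopologicalSpace.SeparableSpace H] (h : ¬ FiniteDimensional ℂ H) :
    Nonempty (HilbertBasis ℕ ℂ H) := by
  obtain ⟨w, b, hb⟩ := exists_hilbertBasis ℂ H
  have hc : Countable w := by
    refine Pairwise.countable_of_isOpen_disjoint (s := fun i : w => Metric.ball (b i) (1 / 2))
      (fun i j hij => Metric.ball_disjoint_ball ?_) (fun _ => Metric.isOpen_ball)
      fun _ => Metric.nonempty_ball.2 (by norm_num)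
    have h2 : ‖b i - b j‖ ^ 2 = 2 := by
      rw [@norm_sub_sq ℂ, b.orthonormal.1, b.orthonormal.1, b.orthonormal.2 hij]
      norm_num
    rw [dist_eq_norm]
    nlinarith [norm_nonneg (b i - b j)]
  have hi : Infinite w := by
    by_contra hf
    have : Finite w := not_infinite_iff_finite.1 hf
    have := Fintype.ofFinite w
    exact h (Module.Finite.of_basis b.toOrthonormalBasis.toBasis)
  obtain ⟨e⟩ := nonempty_equiv_of_countable (α := ℕ) (β := w)
  refine ⟨HilbertBasis.mk (b.orthonormal.comp e e.injective) ?_⟩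
  rw [e.surjective.range_comp, b.dense_span]

end Pool.Agent.H.MP_10cf3c_an
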